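import Mathlib
import Pool.Agent.Lib.MP_2b824f_an.Defs
import Pool.Agent.Lib.MP_2b824f_an.SecToKak
import Pool.Agent.Lib.MP_2b824f_an.KakToSec

open Set Filter Topology MeasureTheory
open Pool.Agent.Lib.MP_2b824f_an

namespace Pool.Agent.Results.MP_2b824f_an.KakutaniClassesBorel

variable {X : Type*} [MeasurableSpace X]

/-- Invertible (bimeasurable) measure preserving transformations of `(X, μ)`. -/
def InvMP (μ : Measure X) : Type _ := {e : X ≃ᵐ X // MeasurePreserving e μ μ}

/-- Equality modulo null sets. -/
instance aeSetoid (μ : Measure X) : Setoid (InvMP μ) where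
  r e f := ∀ᵐ x ∂μ, e.1 x = f.1 x
  iseqv := ⟨fun _ => Eventually.of_forall fun _ => rfl, fun h => h.mono fun _ hx => hx.symm,
    fun h h' => by filter_upwards [h, h'] with x h1 h2; rw [h1, h2]⟩

/-- `Aut(X, μ)`: invertible measure preserving transformations modulo null sets. -/
def Aut (μ : Measure X) : Type _ := Quotient (aeSetoid μ)

/-- A representative of an element of `Aut(X, μ)`. -/
noncomputable def Aut.rep {μ : Measure X} (S : Aut μ) : X ≃ᵐ X :=
  (Quotient.out (s := aeSetoid μ) S).1

/-- The weak topology on `Aut(X, μ)`: the coarsest topology for which all the functions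
`S ↦ μ (S(A) ∆ B)`, with `A`, `B` measurable, are continuous. -/
instance weakTopology (μ : Measure X) : TopologicalSpace (Aut μ) :=
  ⨅ (A : {A : Set X // MeasurableSet A}) (B : {B : Set X // MeasurableSet B}),
    TopologicalSpace.induced (fun S : Aut μ => μ (symmDiff (S.rep '' A.1) B.1)) inferInstance

/-- The set of ergodic transformations (with the subspace topology, as a type). -/
def Erg (μ : Measure X) : Set (Aut μ) := {S | Ergodic S.rep μ}

/-- The Kakutani class of an ergodic transformation `T`, as a subset of the space of ergodic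
transformations. -/
def kakutaniClass {μ : Measure X} (T : Erg μ) : Set (Erg μ) :=
  {S | KakutaniRel μ T.1.rep S.1.rep}

/-! ### Independence of the representatives -/

theorem rep_ae {μ : Measure X} (e : InvMP μ) :
    ∀ᵐ x ∂μ, Aut.rep (μ := μ) (Quotient.mk (aeSetoid μ) e) x = e.1 x :=
  Quotient.mk_out (s := aeSetoid μ) e

theorem rep_mp {μ : Measure X} (S : Aut μ) : MeasurePreserving S.rep μ μ :=
  (Quotient.out (s := aeSetoid μ) S).2

theorem iterate_ae {μ : Measure X} {T T' : X → X} (hT : MeasurePreserving T μ μ)
    (h : ∀ᵐ x ∂μ, T x = T' x) : ∀ᵐ x ∂μ, ∀ n, T^[n] x = T'^[n] x := by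
  rw [ae_all_iff]
  intro n
  induction n with
  | zero => exact Eventually.of_forall fun _ => rfl
  | succ n ih =>
    filter_upwards [ih, (hT.iterate n).quasiMeasurePreserving.ae h] with x h1 h2
    rw [Function.iterate_succ_apply', Function.iterate_succ_apply', ← h1, h2]

theorem inducedMap_ae {μ : Measure X} {T T' : X → X} (hT : MeasurePreserving T μ μ)
    (h : ∀ᵐ x ∂μ, T x = T' x) (A : Set X) : ∀ᵐ x ∂μ, inducedMap T A x = inducedMap T' A x := by
  filter_upwards [iterate_ae hT h] with x hx
  have : returnTime T A x = returnTime T' A x := by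
    simp only [returnTime, hx]
  rw [inducedMap, inducedMap, this, hx]

theorem kakutaniRel_congr {μ : Measure X} {T T' S S' : X → X} (hT : MeasurePreserving T μ μ)
    (hS : MeasurePreserving S μ μ) (h : ∀ᵐ x ∂μ, T x = T' x) (h' : ∀ᵐ x ∂μ, S x = S' x)
    (hk : KakutaniRel μ T S) : KakutaniRel μ T' S' := by
  obtain ⟨A, B, hA, hB, hA0, hB0, φ, ψ, hφ, hψ, h1, h2, h3⟩ := hk
  refine ⟨A, B, hA, hB, hA0, hB0, φ, ψ, hφ, hψ, h1, h2, ?_⟩
  have e1 : ∀ᵐ x ∂(ProbabilityTheory.cond μ A), inducedMap T A x = inducedMap T' A x :=
    Measure.ae_smul_measure (ae_restrict_of_ae (inducedMap_ae hT h A)) _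
  have e2 : ∀ᵐ x ∂(ProbabilityTheory.cond μ B), inducedMap S B x = inducedMap S' B x :=
    Measure.ae_smul_measure (ae_restrict_of_ae (inducedMap_ae hS h' B)) _
  filter_upwards [h3, e1, hφ.quasiMeasurePreserving.ae e2] with x k1 k2 k3
  rw [← k2, k1, k3]

/-! ### The coding map is continuous -/

theorem continuous_basic (μ : Measure X) {A B : Set X} (hA : MeasurableSet A)
    (hB : MeasurableSet B) : Continuous fun S : Aut μ => μ (symmDiff (S.rep '' A) B) := by
  rw [continuous_iff_le_induced]
  exact (iInf_le _ (⟨A, hA⟩ : {A : Set X // MeasurableSet A})).trans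
    (iInf_le _ (⟨B, hB⟩ : {B : Set X // MeasurableSet B}))

theorem continuous_inter (μ : Measure X) [IsProbabilityMeasure μ] {A B : Set X}
    (hA : MeasurableSet A) (hB : MeasurableSet B) :
    Continuous fun S : Aut μ => μ.real (A ∩ S.rep ⁻¹' B) := by
  have h1 : Continuous fun S : Aut μ => (μ (symmDiff (S.rep '' A) B)).toReal :=
    ENNReal.continuousOn_toReal.comp_continuous (continuous_basic μ hA hB)
      fun S => measure_ne_top _ _
  have h2 : (fun S : Aut μ => μ.real (A ∩ S.rep ⁻¹' B))
      = fun S : Aut μ => (μ.real A + μ.real B - (μ (symmDiff (S.rep '' A) B)).toReal) / 2 := by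
    funext S
    have hmp := rep_mp S
    have hSA : MeasurableSet (S.rep '' A) := S.rep.measurableSet_image.2 hA
    have e1 : μ.real (S.rep '' A) = μ.real A := by
      have := hmp.measure_preimage hSA.nullMeasurableSet
      rw [preimage_image_eq _ S.rep.injective] at this
      rw [measureReal_def, measureReal_def, this]
    have e2 : μ.real (A ∩ S.rep ⁻¹' B) = μ.real (S.rep '' A ∩ B) := by
      have h3 := hmp.measure_preimage (hSA.inter hB).nullMeasurableSet
      rw [preimage_inter, preimage_image_eq _ S.rep.injective] at h3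
      rw [measureReal_def, measureReal_def, h3]
    have e3 : (μ (symmDiff (S.rep '' A) B)).toReal
        = μ.real (S.rep '' A \ B) + μ.real (B \ S.rep '' A) := by
      rw [← measureReal_def, Set.symmDiff_def, measureReal_union
        (disjoint_sdiff_sdiff) (hB.diff hSA)]
    have e4 : μ.real (S.rep '' A ∩ B) + μ.real (S.rep '' A \ B) = μ.real (S.rep '' A) :=
      measureReal_inter_add_sdiff hB
    have e5 : μ.real (B ∩ S.rep '' A) + μ.real (B \ S.rep '' A) = μ.real B :=
      measureReal_inter_add_sdiff hSA
    rw [inter_comm] at e5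
    rw [e2, e3]
    linarith
  rw [h2]
  exact ((continuous_const.sub h1).div_const 2)

/-- Every Kakutani equivalence class is a Borel subset of the space of ergodic transformations
with the weak topology. -/
theorem result {X : Type*} [MeasurableSpace X] [StandardBorelSpace X] (μ : Measure X)
    [IsProbabilityMeasure μ] [NullSingletonClass μ] (T : Erg μ) :
    @MeasurableSet (Erg μ) (borel (Erg μ)) (kakutaniClass T) := by
  obtain ⟨e, he, hb⟩ := exists_bdd_embedding X
  have hT : Ergodic T.1.rep μ := T.2
  let F := susFlow hT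
  let code : Erg μ → (ℝ × ℝ → ℝ) := fun S p => μ.real {x | e x ≤ p.1 ∧ e (S.1.rep x) ≤ p.2}
  have hν : IsProbabilityMeasure (μ.map e) :=
    Measure.isProbabilityMeasure_map he.measurable.aemeasurable
  have hν' : NullSingletonClass (μ.map e) := by
    refine ⟨fun c => ?_⟩
    rw [Measure.map_apply he.measurable (measurableSet_singleton c)]
    have : (e ⁻¹' {c}).Subsingleton := fun x hx y hy => he.injective (hx.trans hy.symm)
    exact this.measure_zero μ
  have : SFinite (slam μ) := by
    unfold slam
    infer_instance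
  have hR := F.borel_codes (μ.map e)
  set R := range (fun u : {u : Lp ℝ 1 (slam μ) | Nice (slam μ) (μ.map e) u} =>
    F.fc (u.1 : X × Q0 → ℝ)) with hRdef
  have hclass : kakutaniClass T = code ⁻¹' R := by
    ext S
    have hS : Ergodic S.1.rep μ := S.2
    have hiff := QFlow.sec_iff (F := F) (μ := μ) he hb (S := S.1.rep) S.1.rep.measurable
    change KakutaniRel μ T.1.rep S.1.rep ↔ code S ∈ R
    rw [← show _ ↔ code S ∈ R from hiff]
    constructor
    · intro h
      exact sec_of_kak hT hS h
    · rintro ⟨P, k, G, h⟩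
      exact kak_of_sec hT h
  have hcode : Continuous code := by
    refine continuous_pi fun p => ?_
    have h1 := continuous_inter μ (A := {x | e x ≤ p.1}) (B := {x | e x ≤ p.2})
      (measurableSet_le he.measurable measurable_const)
      (measurableSet_le he.measurable measurable_const)
    exact h1.comp continuous_subtype_val
  rw [hclass]
  let m1 : MeasurableSpace (Erg μ) := borel _
  have b1 : BorelSpace (Erg μ) := ⟨rfl⟩
  let m2 : MeasurableSpace (ℝ × ℝ → ℝ) := borel _
  have b2 : @BorelSpace (ℝ × ℝ → ℝ) _ m2 := @BorelSpace.mk _ _ m2 rfl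
  exact (@Continuous.measurable _ _ _ m1 _ _ m2 b2 code hcode) hR

end Pool.Agent.Results.MP_2b824f_an.KakutaniClassesBorel
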